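import Mathlib

/-!
The on-line token colouring game: no constant `c` satisfies `f(w, G) ≤ (c + o(1)) w` for all finite
graphs `G`.
-/

set_option autoImplicit false

namespace Pool.Agent.Results.MP_a6415b_co.NoLinearBound

open Classical

variable {V : Type}

/-- The token graph of the play in which Spoiler puts tokens on the vertices `l[0], l[1], ...` (in
this order): two tokens are adjacent when they sit on the same or on adjacent vertices. -/
def tokenGraph (G : SimpleGraph V) (l : List V) : SimpleGraph (Fin l.length) where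
  Adj i j := i ≠ j ∧ (l[i] = l[j] ∨ G.Adj l[i] l[j])
  symm := ⟨fun _ _ h => ⟨h.1.symm, h.2.imp Eq.symm fun h' => h'.symm⟩⟩
  loopless := ⟨fun _ h => h.1 rfl⟩

/-- A play is legal if after every move the token graph has chromatic number at most `w`. -/
def Legal (G : SimpleGraph V) (w : ℕ) (l : List V) : Prop :=
  ∀ l', l' <+: l → (tokenGraph G l').Colorable w

/-- A strategy `A` of Algorithm: `A l` is the colour given to the last token of the play `l`.
In the play `l` the `i`-th token (counted from `0`) gets the colour `A (l.take (i + 1))`. -/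
def tokenColour (A : List V → ℕ) (l : List V) (i : Fin l.length) : ℕ := A (l.take (i + 1))

/-- The strategy `A` wins with `N` colours: in every legal play its colouring of the token graph is
proper and uses at most `N` different colours. -/
def Wins (G : SimpleGraph V) (w : ℕ) (A : List V → ℕ) (N : ℕ) : Prop :=
  ∀ l, Legal G w l →
    (∀ i j, (tokenGraph G l).Adj i j → tokenColour A l i ≠ tokenColour A l j) ∧
    (Finset.univ.image (tokenColour A l)).card ≤ N

/-- The value `f(w, G)` of the game. -/
noncomputable def value (G : SimpleGraph V) (w : ℕ) : ℕ := sInf {N | ∃ A, Wins G w A N}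

/-! ### The value is a minimum over a nonempty set -/

lemma length_le [Fintype V] (G : SimpleGraph V) {w : ℕ} {l : List V} (h : Legal G w l) :
    l.length ≤ Fintype.card V * w := by
  obtain ⟨c⟩ := h l (List.prefix_refl l)
  have hinj : Function.Injective (fun i : Fin l.length => (l[i], c i)) := by
    intro i j hij
    simp only [Prod.mk.injEq] at hij
    by_contra hne
    exact c.valid (v := i) (w := j) ⟨hne, Or.inl hij.1⟩ hij.2
  simpa using Fintype.card_le_of_injective _ hinj

lemma exists_wins [Fintype V] (G : SimpleGraph V) (w : ℕ) :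
    ∃ A, Wins G w A (Fintype.card V * w) := by
  refine ⟨fun l => l.length, fun l hl => ⟨?_, ?_⟩⟩
  · intro i j hij heq
    have h1 : tokenColour (fun l : List V => l.length) l i = i + 1 := by
      simp only [tokenColour, List.length_take]
      have := i.2
      omega
    have h2 : tokenColour (fun l : List V => l.length) l j = j + 1 := by
      simp only [tokenColour, List.length_take]
      have := j.2
      omega
    rw [h1, h2] at heq
    exact hij.1 (Fin.ext (by omega))
  · refine le_trans Finset.card_image_le ?_
    simpa using length_le G hl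

lemma value_wins [Fintype V] (G : SimpleGraph V) (w : ℕ) : ∃ A, Wins G w A (value G w) :=
  Nat.sInf_mem (s := {N | ∃ A, Wins G w A N}) ⟨_, exists_wins G w⟩

/-! ### Colours seen on sets of vertices -/

/-- the colours of the tokens on the vertices of `X` -/
def cols (A : List V → ℕ) (l : List V) (X : Set V) : Set ℕ :=
  {a | ∃ p v, (p ++ [v]) <+: l ∧ v ∈ X ∧ A (p ++ [v]) = a}

lemma cols_finite (A : List V → ℕ) (l : List V) (X : Set V) : (cols A l X).Finite := by
  have h : (A '' {p | p ∈ l.inits}).Finite := (List.finite_toSet _).image _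
  refine h.subset ?_
  rintro a ⟨p, v, hp, _, rfl⟩
  exact ⟨p ++ [v], by simpa using hp, rfl⟩

lemma cols_mono {A : List V → ℕ} {l l' : List V} {X X' : Set V} (h : l <+: l') (hX : X ⊆ X') :
    cols A l X ⊆ cols A l' X' := by
  rintro a ⟨p, v, hp, hv, rfl⟩
  exact ⟨p, v, hp.trans h, hX hv, rfl⟩

/-- properness in terms of prefixes -/
def PProper (G : SimpleGraph V) (A : List V → ℕ) (l : List V) : Prop :=
  ∀ p u q v, (p ++ [u]) <+: q → (q ++ [v]) <+: l → (u = v ∨ G.Adj u v) →
    A (p ++ [u]) ≠ A (q ++ [v])

/-- the number of tokens on the vertex `v` -/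
noncomputable def cnt (l : List V) (v : V) : ℕ := l.countP (fun u => decide (u = v))

lemma cnt_append (l l' : List V) (v : V) : cnt (l ++ l') v = cnt l v + cnt l' v :=
  List.countP_append

lemma cnt_single (u v : V) : cnt [u] v = if u = v then 1 else 0 := by
  by_cases h : u = v <;> simp [cnt, h]

lemma cnt_le_of_prefix {l l' : List V} (h : l <+: l') (v : V) : cnt l v ≤ cnt l' v :=
  h.sublist.countP_le

lemma cnt_eq_zero {l : List V} {v : V} (h : v ∉ l) : cnt l v = 0 := by
  unfold cnt
  rw [List.countP_eq_zero]
  intro u hu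
  simp only [decide_eq_true_eq]
  rintro rfl
  exact h hu

lemma cnt_map {W : Type} {f : V → W} (hf : Function.Injective f) (l : List V) (v : V) :
    cnt (l.map f) (f v) = cnt l v := by
  unfold cnt
  rw [List.countP_map]
  apply List.countP_congr
  intro u _
  simp [hf.eq_iff]

lemma cnt_replicate (n : ℕ) (u v : V) : cnt (List.replicate n u) v = if u = v then n else 0 := by
  unfold cnt
  rw [List.countP_replicate]
  by_cases h : u = v <;> simp [h]

/-- at most `m` tokens on every vertex, and `c` splits the used vertices in two independent sets -/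
def Ok (G : SimpleGraph V) (m : ℕ) (l : List V) (c : V → Bool) : Prop :=
  (∀ v, cnt l v ≤ m) ∧ ∀ u ∈ l, ∀ v ∈ l, G.Adj u v → c u ≠ c v

def Good (G : SimpleGraph V) (m : ℕ) (A : List V → ℕ) : Prop :=
  ∀ l c, Ok G m l c → PProper G A l

lemma Ok.sub {G : SimpleGraph V} {m : ℕ} {l l' : List V} {c : V → Bool} (h : Ok G m l c)
    (hp : l' <+: l) : Ok G m l' c :=
  ⟨fun v => (cnt_le_of_prefix hp v).trans (h.1 v), fun u hu v hv =>
    h.2 u (hp.subset hu) v (hp.subset hv)⟩

lemma Ok.colorable {G : SimpleGraph V} {m w : ℕ} {l : List V} {c : V → Bool} (h : Ok G m l c)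
    (hw : 2 * m ≤ w) : (tokenGraph G l).Colorable w := by
  have hcnt : ∀ i : Fin l.length, cnt (l.take i) l[i] < m := by
    intro i
    have h1 : cnt (l.take (i + 1)) l[i] ≤ m :=
      (cnt_le_of_prefix (List.take_prefix _ l) _).trans (h.1 _)
    rw [List.take_succ_eq_append_getElem i.2, cnt_append] at h1
    have h2 : cnt ([l[(i : ℕ)]] : List V) l[i] = 1 := by simp [cnt_single]
    rw [h2] at h1
    omega
  have hlt : ∀ i j : Fin l.length, i < j → l[i] = l[j] →
      cnt (l.take i) l[i] < cnt (l.take j) l[j] := by
    intro i j hij he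
    have h1 : l.take (i + 1) <+: l.take j := by
      apply List.take_prefix_take_left
      exact hij
    have h2 := cnt_le_of_prefix h1 l[j]
    rw [List.take_succ_eq_append_getElem i.2, cnt_append] at h2
    have h3 : cnt ([l[(i : ℕ)]] : List V) l[j] = 1 := by
      rw [← he]; simp [cnt_single]
    rw [h3] at h2
    rw [he]
    omega
  refine ⟨SimpleGraph.Coloring.mk (fun i : Fin l.length =>
    (⟨(if c l[i] then m else 0) + cnt (l.take i) l[i], by
      have := hcnt i
      split_ifs <;> omega⟩ : Fin w)) ?_⟩
  intro i j hij heq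
  obtain ⟨hne, hadj⟩ := hij
  rw [Fin.mk.injEq] at heq
  have h1 := hcnt i
  have h2 := hcnt j
  rcases hadj with he | hadj
  · rcases lt_or_gt_of_ne hne with hlt' | hlt'
    · have := hlt i j hlt' he
      rw [he] at heq this
      omega
    · have := hlt j i hlt' he.symm
      rw [he] at heq this
      omega
  · have h3 := h.2 l[i] (List.getElem_mem _) l[j] (List.getElem_mem _) hadj
    rcases hci : c l[i] with _ | _ <;> rcases hcj : c l[j] with _ | _
    · exact h3 (hci.trans hcj.symm)
    · simp only [hci, hcj, Bool.false_eq_true, if_false, if_true] at heq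
      omega
    · simp only [hci, hcj, Bool.false_eq_true, if_false, if_true] at heq
      omega
    · exact h3 (hci.trans hcj.symm)

lemma good_of_wins {G : SimpleGraph V} {m w N : ℕ} {A : List V → ℕ} (hw : 2 * m ≤ w)
    (h : Wins G w A N) : Good G m A := by
  intro l c hok p u q v hpq hql huv
  have hleg : Legal G w l := fun l' hl' => (hok.sub hl').colorable hw
  have hpl : (p ++ [u]) <+: l := hpq.trans ((List.prefix_append _ _).trans hql)
  have hlen1 := hpq.length_le
  have hlen2 := hql.length_le
  simp only [List.length_append, List.length_singleton] at hlen1 hlen2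
  have hi : p.length < l.length := by omega
  have hj : q.length < l.length := by omega
  have e1 : l.take (p.length + 1) = p ++ [u] := by
    have := List.prefix_iff_eq_take.1 hpl
    simpa using this.symm
  have e2 : l.take (q.length + 1) = q ++ [v] := by
    have := List.prefix_iff_eq_take.1 hql
    simpa using this.symm
  have g1 : l[p.length] = u := by
    have h1 : (l.take (p.length + 1))[p.length]? = (p ++ [u])[p.length]? := by rw [e1]
    rw [List.getElem?_take_of_lt (by omega)] at h1
    simpa [List.getElem?_eq_getElem hi] using h1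
  have g2 : l[q.length] = v := by
    have h1 : (l.take (q.length + 1))[q.length]? = (q ++ [v])[q.length]? := by rw [e2]
    rw [List.getElem?_take_of_lt (by omega)] at h1
    simpa [List.getElem?_eq_getElem hj] using h1
  have := (h l hleg).1 ⟨p.length, hi⟩ ⟨q.length, hj⟩ ⟨by
    intro h; rw [Fin.mk.injEq] at h; omega, by
    simp only [Fin.getElem_fin, g1, g2]; exact huv⟩
  simp only [tokenColour, e1, e2] at this
  exact this

lemma cols_card_le {G : SimpleGraph V} {w N : ℕ} {A : List V → ℕ} (h : Wins G w A N)
    {l : List V} (hl : Legal G w l) (X : Set V) : (cols A l X).ncard ≤ N := by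
  refine le_trans ?_ (h l hl).2
  rw [← Set.ncard_coe_finset]
  apply Set.ncard_le_ncard _ (Finset.finite_toSet _)
  rintro a ⟨p, v, hp, _, rfl⟩
  have hlen := hp.length_le
  simp only [List.length_append, List.length_singleton] at hlen
  have e1 : l.take (p.length + 1) = p ++ [v] := by
    have := List.prefix_iff_eq_take.1 hp
    simpa using this.symm
  simp only [Finset.coe_image, Finset.coe_univ, Set.image_univ, Set.mem_range]
  exact ⟨⟨p.length, by omega⟩, by simp only [tokenColour, e1]⟩

/-! ### The recursive host graph -/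

/-- Two copies of `G` and, for every pair of sets of vertices of the two copies, a new vertex
adjacent to exactly these sets. -/
def stepG (G : SimpleGraph V) : SimpleGraph (V ⊕ V ⊕ (Set V × Set V)) where
  Adj x y := match x, y with
    | Sum.inl a, Sum.inl b => G.Adj a b
    | Sum.inr (Sum.inl a), Sum.inr (Sum.inl b) => G.Adj a b
    | Sum.inr (Sum.inr S), Sum.inl a => a ∈ S.1
    | Sum.inl a, Sum.inr (Sum.inr S) => a ∈ S.1
    | Sum.inr (Sum.inr S), Sum.inr (Sum.inl a) => a ∈ S.2
    | Sum.inr (Sum.inl a), Sum.inr (Sum.inr S) => a ∈ S.2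
    | _, _ => False
  symm := ⟨by
    rintro (a | a | S) (b | b | T) h <;> simp only at h ⊢ <;> first | exact h | exact h.symm⟩
  loopless := ⟨by
    rintro (a | a | S) h <;> simp only at h <;> exact G.loopless.irrefl _ h⟩

/-- the first copy -/
abbrev i1 (v : V) : V ⊕ V ⊕ (Set V × Set V) := Sum.inl v
/-- the second copy -/
abbrev i2 (v : V) : V ⊕ V ⊕ (Set V × Set V) := Sum.inr (Sum.inl v)
/-- the new vertices -/
abbrev i3 (S : Set V × Set V) : V ⊕ V ⊕ (Set V × Set V) := Sum.inr (Sum.inr S)

lemma cnt_part (l1 l2 : List V) (n : ℕ) (S : Set V × Set V)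
    (x : V ⊕ V ⊕ (Set V × Set V)) :
    cnt (l1.map i1 ++ l2.map i2 ++ List.replicate n (i3 S)) x =
      match x with
      | Sum.inl v => cnt l1 v
      | Sum.inr (Sum.inl v) => cnt l2 v
      | Sum.inr (Sum.inr T) => if S = T then n else 0 := by
  have hi1 : Function.Injective (i1 (V := V)) := fun a b h => by simpa [i1] using h
  have hi2 : Function.Injective (i2 (V := V)) := fun a b h => by simpa [i2] using h
  rw [cnt_append, cnt_append]
  rcases x with v | v | T
  · rw [show (Sum.inl v : V ⊕ V ⊕ (Set V × Set V)) = i1 v from rfl,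
      cnt_map hi1, cnt_eq_zero (l := l2.map i2),
      cnt_eq_zero (l := List.replicate n (i3 S))]
    · simp
    · simp [List.mem_replicate, i1, i3]
    · simp [i1, i2]
  · rw [show (Sum.inr (Sum.inl v) : V ⊕ V ⊕ (Set V × Set V)) = i2 v from rfl,
      cnt_map hi2, cnt_eq_zero (l := l1.map i1),
      cnt_eq_zero (l := List.replicate n (i3 S))]
    · simp
    · simp [List.mem_replicate, i2, i3]
    · simp [i1, i2]
  · rw [cnt_eq_zero (l := l1.map i1),
      cnt_eq_zero (l := l2.map i2), cnt_replicate]
    · simp [i3]
    · simp [i2]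
    · simp [i1]

lemma ok_union {G : SimpleGraph V} {m : ℕ} {l1 l2 : List V} {c1 c2 : V → Bool}
    (h1 : Ok G m l1 c1) (h2 : Ok G m l2 c2) (n : ℕ) (hn : n ≤ m) :
    Ok (stepG G) m (l1.map i1 ++ l2.map i2 ++
      List.replicate n (i3 ({a | c1 a = true}, {a | c2 a = true})))
      (Sum.elim c1 (Sum.elim c2 fun _ => false)) := by
  constructor
  · intro x
    rw [cnt_part]
    rcases x with v | v | T
    · exact h1.1 v
    · exact h2.1 v
    · simp only
      split_ifs <;> omega
  · intro x hx y hy hadj
    have key : ∀ x ∈ (l1.map i1 ++ l2.map i2 ++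
      List.replicate n (i3 (({a | c1 a = true} : Set V), ({a | c2 a = true} : Set V)))),
        (∃ v ∈ l1, x = i1 v) ∨ (∃ v ∈ l2, x = i2 v) ∨
          x = i3 (({a | c1 a = true} : Set V), ({a | c2 a = true} : Set V)) := by
      intro x hx
      simp only [List.mem_append, List.mem_map, List.mem_replicate] at hx
      rcases hx with (⟨v, hv, rfl⟩ | ⟨v, hv, rfl⟩) | ⟨_, rfl⟩
      · exact Or.inl ⟨v, hv, rfl⟩
      · exact Or.inr (Or.inl ⟨v, hv, rfl⟩)
      · exact Or.inr (Or.inr rfl)
    rcases key x hx with ⟨u, hu, rfl⟩ | ⟨u, hu, rfl⟩ | rfl <;>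
      rcases key y hy with ⟨v, hv, rfl⟩ | ⟨v, hv, rfl⟩ | rfl <;>
      simp only [stepG, i1, i2, i3, Sum.elim_inl, Sum.elim_inr] at hadj ⊢
    · exact h1.2 u hu v hv hadj
    · have : c1 u = true := hadj
      simp [this]
    · exact h2.2 u hu v hv hadj
    · have : c2 u = true := hadj
      simp [this]
    · have : c1 v = true := hadj
      simp [this]
    · have : c2 v = true := hadj
      simp [this]

lemma pproper_map1 {G : SimpleGraph V} {A : List (V ⊕ V ⊕ (Set V × Set V)) → ℕ} {l : List V}
    (h : PProper (stepG G) A (l.map i1)) : PProper G (fun l => A (l.map i1)) l := by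
  intro p u q v hpq hql huv
  have := h (p.map i1) (i1 u) (q.map i1) (i1 v) (by simpa using hpq.map i1)
    (by simpa using hql.map i1) (huv.imp (fun h => by rw [h]) (fun h => h))
  simpa using this

lemma pproper_map2 {G : SimpleGraph V} {A : List (V ⊕ V ⊕ (Set V × Set V)) → ℕ}
    {l0 : List (V ⊕ V ⊕ (Set V × Set V))} {l : List V}
    (h : PProper (stepG G) A (l0 ++ l.map i2)) : PProper G (fun l => A (l0 ++ l.map i2)) l := by
  intro p u q v hpq hql huv
  have := h (l0 ++ p.map i2) (i2 u) (l0 ++ q.map i2) (i2 v)
    (by simpa using hpq.map i2)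
    (by simpa using hql.map i2) (huv.imp (fun h => by rw [h]) (fun h => h))
  simpa using this

lemma cols_replicate {G : SimpleGraph V} {A : List V → ℕ} {l0 : List V} {z : V} {m : ℕ}
    (h : PProper G A (l0 ++ List.replicate m z)) :
    m ≤ (cols A (l0 ++ List.replicate m z) {z}).ncard := by
  have hsub : (fun i : Fin m => A (l0 ++ List.replicate (i + 1) z)) '' Set.univ ⊆
      cols A (l0 ++ List.replicate m z) {z} := by
    rintro a ⟨i, _, rfl⟩
    refine ⟨l0 ++ List.replicate i z, z, ?_, rfl, ?_⟩
    · rw [List.append_assoc, List.prefix_append_right_inj,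
        ← List.replicate_succ', List.prefix_replicate_iff]
      simp
    · rw [List.append_assoc, ← List.replicate_succ']
  have hinj : Function.Injective (fun i : Fin m => A (l0 ++ List.replicate (i + 1) z)) := by
    have key : ∀ i j : Fin m, i < j →
        A (l0 ++ List.replicate (i + 1) z) ≠ A (l0 ++ List.replicate (j + 1) z) := by
      intro i j hij
      have := h (l0 ++ List.replicate i z) z (l0 ++ List.replicate j z) z ?_ ?_ (Or.inl rfl)
      · simpa only [List.append_assoc, ← List.replicate_succ'] using this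
      · rw [List.append_assoc, List.prefix_append_right_inj,
          ← List.replicate_succ', List.prefix_replicate_iff]
        simpa using hij
      · rw [List.append_assoc, List.prefix_append_right_inj,
          ← List.replicate_succ', List.prefix_replicate_iff]
        simp
    intro i j hij
    rcases lt_trichotomy i j with h1 | h1 | h1
    · exact absurd hij (key i j h1)
    · exact h1
    · exact absurd hij.symm (key j i h1)
  calc m = (Set.univ : Set (Fin m)).ncard := by simp [Set.ncard_univ]
    _ = ((fun i : Fin m => A (l0 ++ List.replicate (i + 1) z)) '' Set.univ).ncard :=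
        (Set.ncard_image_of_injective _ hinj).symm
    _ ≤ _ := Set.ncard_le_ncard hsub (cols_finite _ _ _)

/-- the conclusion of the induction -/
def Concl (G : SimpleGraph V) (k m : ℕ) (A : List V → ℕ) : Prop :=
  ∃ (l : List V) (c : V → Bool) (y : V), Ok G m l c ∧ c y = false ∧
    (∀ x, x ∈ l → c x = true → G.Adj y x) ∧
    m ≤ (cols A l {y}).ncard ∧ (k + 2) * m ≤ 2 * (cols A l {x | c x = true}).ncard

lemma cols_map1 {A : List (V ⊕ V ⊕ (Set V × Set V)) → ℕ} {l1 : List V} {c1 : V → Bool}
    {c : V ⊕ V ⊕ (Set V × Set V) → Bool} (hc : ∀ v, c1 v = true → c (i1 v) = true) :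
    cols (fun l => A (l.map i1)) l1 {x | c1 x = true} ⊆
      cols A (l1.map i1) {x | c x = true} := by
  rintro a ⟨p, v, hp, hv, rfl⟩
  refine ⟨p.map i1, i1 v, by simpa using hp.map i1, hc v hv, ?_⟩
  simp

lemma cols_map2 {A : List (V ⊕ V ⊕ (Set V × Set V)) → ℕ} {l0 : List (V ⊕ V ⊕ (Set V × Set V))}
    {l2 : List V} {c2 : V → Bool}
    {c : V ⊕ V ⊕ (Set V × Set V) → Bool} (hc : ∀ v, c2 v = true → c (i2 v) = true) :
    cols (fun l => A (l0 ++ l.map i2)) l2 {x | c2 x = true} ⊆
      cols A (l0 ++ l2.map i2) {x | c x = true} := by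
  rintro a ⟨p, v, hp, hv, rfl⟩
  refine ⟨l0 ++ p.map i2, i2 v, by simpa using hp.map i2, hc v hv, ?_⟩
  simp

lemma finish {G : SimpleGraph V} {k m : ℕ} {A : List (V ⊕ V ⊕ (Set V × Set V)) → ℕ}
    (hA : Good (stepG G) m A) {l1 l2 : List V} {c1 c2 : V → Bool}
    (h1 : Ok G m l1 c1) (h2 : Ok G m l2 c2)
    (hk : (k + 2) * m ≤ 2 * (cols (fun l => A (l.map i1)) l1 {x | c1 x = true} ∪
      cols (fun l => A (l1.map i1 ++ l.map i2)) l2 {x | c2 x = true}).ncard) :
    Concl (stepG G) k m A := by
  have hok := ok_union h1 h2 m le_rfl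
  refine ⟨_, _, i3 ({a | c1 a = true}, {a | c2 a = true}), hok, rfl, ?_, ?_, ?_⟩
  · rintro (v | v | T) _ hv
    · exact hv
    · exact hv
    · simp at hv
  · exact cols_replicate (hA _ _ hok)
  · refine hk.trans (Nat.mul_le_mul_left 2 (Set.ncard_le_ncard ?_ (cols_finite _ _ _)))
    apply Set.union_subset
    · refine (cols_map1 (c := Sum.elim c1 (Sum.elim c2 fun _ => false)) fun v hv => hv).trans ?_
      apply cols_mono _ le_rfl
      rw [List.append_assoc]
      exact List.prefix_append _ _
    · refine (cols_map2 (c := Sum.elim c1 (Sum.elim c2 fun _ => false)) fun v hv => hv).trans ?_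
      apply cols_mono _ le_rfl
      exact List.prefix_append _ _

lemma disj_cols {G : SimpleGraph V} {A : List V → ℕ} {l : List V} {c : V → Bool} {y : V}
    (h : PProper G A l) (hy : c y = false) (hadj : ∀ x, x ∈ l → c x = true → G.Adj y x) :
    Disjoint (cols A l {y}) (cols A l {x | c x = true}) := by
  rw [Set.disjoint_left]
  rintro a ⟨p, y', hp, rfl, rfl⟩ ⟨q, v, hq, hv, he⟩
  have hvl : v ∈ l := hq.subset (by simp)
  have ha := hadj v hvl hv
  rcases List.prefix_or_prefix_of_prefix hp hq with h1 | h1
  · rw [List.prefix_concat_iff] at h1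
    rcases h1 with h1 | h1
    · have : y' = v := by
        have := congrArg List.getLast? h1
        simpa using this
      subst this
      exact ha.ne rfl
    · exact h p y' q v h1 hq (Or.inr ha) he.symm
  · rw [List.prefix_concat_iff] at h1
    rcases h1 with h1 | h1
    · have : v = y' := by
        have := congrArg List.getLast? h1
        simpa using this
      subst this
      exact ha.ne rfl
    · exact h q v p y' h1 hp (Or.inr ha.symm) he

lemma ok_nil {G : SimpleGraph V} {m : ℕ} {c : V → Bool} : Ok G m [] c :=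
  ⟨fun v => by simp [cnt], fun u hu => by simp at hu⟩

lemma Ok.flip {G : SimpleGraph V} {m : ℕ} {l : List V} {c : V → Bool} (h : Ok G m l c) :
    Ok G m l (fun v => !c v) :=
  ⟨h.1, fun u hu v hv hadj => by
    have := h.2 u hu v hv hadj
    simpa using this⟩

theorem claim (k : ℕ) : ∃ (V : Type) (_ : Fintype V) (G : SimpleGraph V),
    ∀ (m : ℕ) (A : List V → ℕ), Good G m A → Concl G k m A := by
  induction k with
  | zero =>
    refine ⟨Bool, inferInstance, ⊤, fun m A hA => ?_⟩
    have hok : Ok (⊤ : SimpleGraph Bool) m (List.replicate m true ++ List.replicate m false) id := by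
      constructor
      · intro v
        rw [cnt_append, cnt_replicate, cnt_replicate]
        cases v <;> simp
      · intro u _ v _ h
        exact h
    refine ⟨_, _, false, hok, rfl, ?_, ?_, ?_⟩
    · intro x _ hx
      have hx' : x = true := hx
      subst hx'
      simp
    · exact cols_replicate (hA _ _ hok)
    · have h1 : PProper (⊤ : SimpleGraph Bool) A ([] ++ List.replicate m true) :=
        hA _ _ (hok.sub (by simp))
      have h2 := cols_replicate h1
      have h3 := Set.ncard_le_ncard (cols_mono (A := A) (X := {true}) (X' := {x | id x = true})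
        (l := [] ++ List.replicate m true)
        (l' := List.replicate m true ++ List.replicate m false) (by simp)
        (by intro x hx; exact hx)) (cols_finite _ _ _)
      omega
  | succ k ih =>
    obtain ⟨V, hV, G, hG⟩ := ih
    refine ⟨V ⊕ V ⊕ (Set V × Set V), Fintype.ofFinite _, stepG G, fun m A hA => ?_⟩
    have hA1 : Good G m (fun l => A (l.map i1)) := by
      intro l c hok
      have := hA _ _ (ok_union hok (ok_nil (G := G) (c := c)) 0 (Nat.zero_le m))
      apply pproper_map1
      simpa using this
    obtain ⟨l1, c1, y1, hok1, hy1, hadj1, hm1, hk1⟩ := hG m _ hA1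
    have hA2 : Good G m (fun l => A (l1.map i1 ++ l.map i2)) := by
      intro l c hok
      have := hA _ _ (ok_union hok1 hok 0 (Nat.zero_le m))
      apply pproper_map2
      simpa using this
    obtain ⟨l2, c2, y2, hok2, hy2, hadj2, hm2, hk2⟩ := hG m _ hA2
    set C1 := cols (fun l => A (l.map i1)) l1 {x | c1 x = true} with hC1
    set C2 := cols (fun l => A (l1.map i1 ++ l.map i2)) l2 {x | c2 x = true} with hC2
    set D2 := cols (fun l => A (l1.map i1 ++ l.map i2)) l2 {y2} with hD2
    have fC1 : C1.Finite := cols_finite _ _ _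
    have fC2 : C2.Finite := cols_finite _ _ _
    have fD2 : D2.Finite := cols_finite _ _ _
    rcases Nat.lt_or_ge (2 * (C1 ∪ C2).ncard) ((k + 1 + 2) * m) with hlt | hge
    · -- second case: use the opposite side of the second component
      apply finish hA hok1 hok2.flip
      have hsub : C1 ∪ D2 ⊆ C1 ∪
          cols (fun l => A (l1.map i1 ++ l.map i2)) l2 {x | (!c2 x) = true} := by
        apply Set.union_subset_union_right
        apply cols_mono (List.prefix_refl _)
        rintro x rfl
        simp [hy2]
      refine le_trans ?_ (Nat.mul_le_mul_left 2 (Set.ncard_le_ncard hsub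
        (fC1.union (cols_finite _ _ _))))
      have hdis : Disjoint D2 C2 := disj_cols (hA2 _ _ hok2) hy2 hadj2
      have e1 : (C1 \ C2).ncard + C2.ncard = (C1 ∪ C2).ncard :=
        Set.ncard_sdiff_add_ncard C1 C2 fC1 fC2
      have e2 : (C1 ∪ D2).ncard + (C1 ∩ D2).ncard = C1.ncard + D2.ncard :=
        Set.ncard_union_add_ncard_inter C1 D2 fC1 fD2
      have e3 : (C1 ∩ D2).ncard ≤ (C1 \ C2).ncard := by
        apply Set.ncard_le_ncard _ (fC1.sdiff)
        rintro a ⟨ha1, ha2⟩
        exact ⟨ha1, fun ha3 => Set.disjoint_left.1 hdis ha2 ha3⟩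
      have e4 : (k + 1 + 2) * m = (k + 2) * m + m := by ring
      omega
    · exact finish hA hok1 hok2 hge

/-- The value of the game on the host graph of level `k`. -/
theorem value_lower (k : ℕ) : ∃ (V : Type) (_ : Fintype V) (G : SimpleGraph V),
    ∀ w : ℕ, (k + 4) * (w / 2) ≤ 2 * value G w := by
  obtain ⟨V, hV, G, hG⟩ := claim k
  refine ⟨V, hV, G, fun w => ?_⟩
  obtain ⟨A, hA⟩ := value_wins G w
  have hgood : Good G (w / 2) A := good_of_wins (by omega) hA
  obtain ⟨l, c, y, hok, hy, hadj, hm, hk⟩ := hG (w / 2) A hgood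
  have hleg : Legal G w l := fun l' hl' => (hok.sub hl').colorable (by omega)
  have h1 := cols_card_le hA hleg Set.univ
  have h2 : cols A l {y} ∪ cols A l {x | c x = true} ⊆ cols A l Set.univ :=
    Set.union_subset (cols_mono (List.prefix_refl _) (Set.subset_univ _))
      (cols_mono (List.prefix_refl _) (Set.subset_univ _))
  have h3 := Set.ncard_le_ncard h2 (cols_finite _ _ _)
  rw [Set.ncard_union_eq (disj_cols (hgood _ _ hok) hy hadj) (cols_finite _ _ _)
    (cols_finite _ _ _)] at h3
  have e : (k + 4) * (w / 2) = (k + 2) * (w / 2) + 2 * (w / 2) := by ring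
  omega

/-- **No uniform linear bound for the on-line token colouring game.** For every real `c` there is a
finite graph `G` with `f(w, G) > c * w` for all `w ≥ 2`; in particular
`limsup f(w, G) / w > c` for a suitable finite graph `G`. -/
theorem result (c : ℝ) : ∃ (V : Type) (_ : Fintype V) (G : SimpleGraph V),
    (∀ w : ℕ, 2 ≤ w → c * w < value G w) ∧
    (c : EReal) < Filter.limsup (fun w : ℕ => (((value G w : ℝ) / w : ℝ) : EReal))
      Filter.atTop := by
  obtain ⟨k, hk⟩ := exists_nat_gt (6 * (c + 1))
  obtain ⟨V, hV, G, hG⟩ := value_lower k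
  have key : ∀ w : ℕ, 2 ≤ w → (c + 1) * w < value G w := by
    intro w hw
    have h1 : ((k : ℝ) + 4) * ((w / 2 : ℕ) : ℝ) ≤ 2 * value G w := by exact_mod_cast hG w
    have h2 : (w : ℝ) ≤ 3 * ((w / 2 : ℕ) : ℝ) := by
      have : w ≤ 3 * (w / 2) := by omega
      exact_mod_cast this
    have h3 : (0 : ℝ) < w := by
      have : 0 < w := by omega
      exact_mod_cast this
    have h4 : (0 : ℝ) ≤ k := Nat.cast_nonneg k
    nlinarith
  refine ⟨V, hV, G, fun w hw => ?_, ?_⟩
  · have h3 : (0 : ℝ) ≤ w := Nat.cast_nonneg w
    have := key w hw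
    nlinarith
  · have h1 : ((c + 1 : ℝ) : EReal) ≤
        Filter.limsup (fun w : ℕ => (((value G w : ℝ) / w : ℝ) : EReal)) Filter.atTop := by
      refine Filter.le_limsup_of_frequently_le ?_ (by isBoundedDefault)
      apply Filter.Eventually.frequently
      filter_upwards [Filter.eventually_ge_atTop 2] with w hw
      rw [EReal.coe_le_coe_iff]
      have h3 : (0 : ℝ) < w := by
        have : 0 < w := by omega
        exact_mod_cast this
      rw [le_div_iff₀ h3]
      exact (key w hw).le
    refine lt_of_lt_of_le ?_ h1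
    rw [EReal.coe_lt_coe_iff]
    linarith

end Pool.Agent.Results.MP_a6415b_co.NoLinearBound
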